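import Mathlib

/-! # Characters of a finite `ZMod 2`-space, Parseval, and Chang's inequality. -/

open Finset BigOperators

namespace H20.KM

set_option linter.unusedSectionVars false

variable {G : Type*} [AddCommGroup G] [Module (ZMod 2) G] [Fintype G]

noncomputable instance dualFintype : Fintype (Module.Dual (ZMod 2) G) :=
  have : Finite (Module.Dual (ZMod 2) G) := DFunLike.finite _
  Fintype.ofFinite _

/-- the real character attached to a functional -/
noncomputable def chi (ξ : Module.Dual (ZMod 2) G) (x : G) : ℝ := if ξ x = 0 then 1 else -1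

theorem chi_zero_left (x : G) : chi (0 : Module.Dual (ZMod 2) G) x = 1 := by simp [chi]

theorem chi_zero_right (ξ : Module.Dual (ZMod 2) G) : chi ξ 0 = 1 := by simp [chi]

theorem zmod2_cases (a : ZMod 2) : a = 0 ∨ a = 1 := by
  revert a; decide

theorem chi_add_right (ξ : Module.Dual (ZMod 2) G) (x y : G) :
    chi ξ (x + y) = chi ξ x * chi ξ y := by
  unfold chi
  rw [map_add]
  have h11 : (1 : ZMod 2) + 1 = 0 := by decide
  rcases zmod2_cases (ξ x) with h | h <;> rcases zmod2_cases (ξ y) with h' | h' <;>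
    simp [h, h', h11]

theorem chi_add_left (ξ ζ : Module.Dual (ZMod 2) G) (x : G) :
    chi (ξ + ζ) x = chi ξ x * chi ζ x := by
  unfold chi
  rw [LinearMap.add_apply]
  have h11 : (1 : ZMod 2) + 1 = 0 := by decide
  rcases zmod2_cases (ξ x) with h | h <;> rcases zmod2_cases (ζ x) with h' | h' <;>
    simp [h, h', h11]

theorem chi_sum_left (t : Finset (Module.Dual (ZMod 2) G)) (x : G) :
    chi (∑ i ∈ t, i) x = ∏ i ∈ t, chi i x := by
  classical
  induction t using Finset.induction_on with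
  | empty => simp [chi]
  | insert a s ha ih => rw [Finset.sum_insert ha, Finset.prod_insert ha, chi_add_left, ih]

theorem chi_eq (ξ : Module.Dual (ZMod 2) G) (x : G) : chi ξ x = 1 ∨ chi ξ x = -1 := by
  unfold chi; split_ifs <;> simp

theorem abs_chi (ξ : Module.Dual (ZMod 2) G) (x : G) : |chi ξ x| = 1 := by
  rcases chi_eq ξ x with h | h <;> simp [h]

theorem chi_sq (ξ : Module.Dual (ZMod 2) G) (x : G) : chi ξ x * chi ξ x = 1 := by
  rcases chi_eq ξ x with h | h <;> simp [h]

theorem sum_chi_of_ne (ξ : Module.Dual (ZMod 2) G) (hξ : ξ ≠ 0) : ∑ x : G, chi ξ x = 0 := by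
  obtain ⟨y, hy⟩ : ∃ y, ξ y ≠ 0 := by
    by_contra h
    push Not at h
    exact hξ (LinearMap.ext h)
  have hy' : chi ξ y = -1 := by simp [chi, hy]
  have h1 : ∑ x : G, chi ξ (x + y) = ∑ x : G, chi ξ x :=
    Fintype.sum_equiv (Equiv.addRight y) _ _ (fun x => rfl)
  have h2 : ∑ x : G, chi ξ (x + y) = - ∑ x : G, chi ξ x := by
    rw [← Finset.sum_neg_distrib]
    apply Finset.sum_congr rfl
    intro x _
    rw [chi_add_right, hy']; ring
  linarith

theorem sum_chi_dual_of_ne (x : G) (hx : x ≠ 0) :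
    ∑ ξ : Module.Dual (ZMod 2) G, chi ξ x = 0 := by
  obtain ⟨ζ, hζ⟩ : ∃ ζ : Module.Dual (ZMod 2) G, ζ x ≠ 0 := by
    by_contra h
    push Not at h
    exact hx ((Module.forall_dual_apply_eq_zero_iff (ZMod 2) x).mp h)
  have hy' : chi ζ x = -1 := by simp [chi, hζ]
  have h1 : ∑ ξ : Module.Dual (ZMod 2) G, chi (ξ + ζ) x = ∑ ξ : Module.Dual (ZMod 2) G, chi ξ x :=
    Fintype.sum_equiv (Equiv.addRight ζ) _ _ (fun x => rfl)
  have h2 : ∑ ξ : Module.Dual (ZMod 2) G, chi (ξ + ζ) x =
      - ∑ ξ : Module.Dual (ZMod 2) G, chi ξ x := by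
    rw [← Finset.sum_neg_distrib]
    apply Finset.sum_congr rfl
    intro x _
    rw [chi_add_left, hy']; ring
  linarith

/-- Fourier transform -/
noncomputable def ft (u : G → ℝ) (ξ : Module.Dual (ZMod 2) G) : ℝ := ∑ x : G, u x * chi ξ x

/-- number of characters -/
noncomputable def nd (G : Type*) [AddCommGroup G] [Module (ZMod 2) G] [Fintype G] : ℝ :=
  (Fintype.card (Module.Dual (ZMod 2) G) : ℝ)

theorem nd_pos : 0 < nd G := by
  unfold nd
  exact_mod_cast Fintype.card_pos_iff.mpr ⟨0⟩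

theorem add_self_zero (x : G) : x + x = 0 := by
  have : (2 : ZMod 2) • x = 0 := by
    rw [show (2 : ZMod 2) = 0 by decide, zero_smul]
  rw [show (2 : ZMod 2) = 1 + 1 by decide, add_smul, one_smul] at this
  exact this

theorem sum_chi_dual (x y : G) [DecidableEq G] :
    ∑ ξ : Module.Dual (ZMod 2) G, chi ξ (x + y) = if x = y then nd G else 0 := by
  split_ifs with h
  · rw [h, add_self_zero]
    simp [chi_zero_right, nd]
  · apply sum_chi_dual_of_ne
    intro h0
    apply h
    have : x + y + y = y := by rw [h0, zero_add]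
    rwa [add_assoc, add_self_zero, add_zero] at this

theorem inversion (u : G → ℝ) (x : G) :
    ∑ ξ : Module.Dual (ZMod 2) G, ft u ξ * chi ξ x = nd G * u x := by
  classical
  unfold ft
  simp_rw [Finset.sum_mul]
  rw [Finset.sum_comm]
  have : ∀ y : G, ∑ ξ : Module.Dual (ZMod 2) G, u y * chi ξ y * chi ξ x =
      if y = x then nd G * u y else 0 := by
    intro y
    have h1 : ∀ ξ : Module.Dual (ZMod 2) G, u y * chi ξ y * chi ξ x = u y * chi ξ (y + x) := by
      intro ξ; rw [chi_add_right]; ring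
    simp_rw [h1]
    rw [← Finset.mul_sum, sum_chi_dual]
    split_ifs <;> ring
  simp_rw [this]
  simp

theorem parseval (u : G → ℝ) :
    ∑ ξ : Module.Dual (ZMod 2) G, ft u ξ ^ 2 = nd G * ∑ x, u x ^ 2 := by
  have h1 : ∀ ξ : Module.Dual (ZMod 2) G, ft u ξ ^ 2 = ∑ x, u x * (ft u ξ * chi ξ x) := by
    intro ξ
    rw [sq]
    nth_rewrite 1 [ft]
    rw [Finset.sum_mul]
    apply Finset.sum_congr rfl
    intro x _
    ring
  simp_rw [h1]
  rw [Finset.sum_comm]
  simp_rw [← Finset.mul_sum, inversion]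
  rw [Finset.mul_sum]
  apply Finset.sum_congr rfl
  intro x _
  ring

/-- Chang's inequality for independent large-spectrum characters -/
theorem chang (X : Finset G) (hX : X.Nonempty) (Λ : Finset (Module.Dual (ZMod 2) G))
    (hind : ∀ t ⊆ Λ, ∑ i ∈ t, i = 0 → t = ∅)
    (hbig : ∀ ξ ∈ Λ, (X.card : ℝ) / 2 ≤ |∑ x ∈ X, chi ξ x|) :
    (Λ.card : ℝ) ≤ 8 * Real.log ((Fintype.card G : ℝ) / X.card) := by
  classical
  have hG : (0 : ℝ) < Fintype.card G := by exact_mod_cast Fintype.card_pos_iff.mpr ⟨0⟩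
  have hXc : (0 : ℝ) < X.card := by exact_mod_cast hX.card_pos
  set c : Module.Dual (ZMod 2) G → ℝ := fun ξ => if 0 ≤ ∑ x ∈ X, chi ξ x then 1 / 2 else -(1 / 2) with hc
  have hcs : ∀ ξ, c ξ ^ 2 = 1 / 4 := by
    intro ξ; simp only [hc]; split_ifs <;> norm_num
  have hcabs : ∀ ξ, c ξ * ∑ x ∈ X, chi ξ x = |∑ x ∈ X, chi ξ x| / 2 := by
    intro ξ
    simp only [hc]
    split_ifs with h
    · rw [abs_of_nonneg h]; ring
    · rw [abs_of_neg (not_le.mp h)]; ring
  set u : G → ℝ := fun x => ∑ ξ ∈ Λ, c ξ * chi ξ x with hu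
  -- upper bound
  have hup : ∑ x : G, Real.exp (u x) ≤ Fintype.card G * Real.exp (Λ.card / 8) := by
    have h1 : ∀ x : G, Real.exp (u x) =
        ∑ t ∈ Λ.powerset, (∏ i ∈ t, Real.sinh (c i)) * (∏ i ∈ Λ \ t, Real.cosh (c i)) *
          chi (∑ i ∈ t, i) x := by
      intro x
      rw [hu]
      simp only
      rw [Real.exp_sum]
      have h2 : ∀ ξ ∈ Λ, Real.exp (c ξ * chi ξ x) = Real.sinh (c ξ) * chi ξ x + Real.cosh (c ξ) := by
        intro ξ _
        rcases chi_eq ξ x with h | h
        · rw [h, mul_one, mul_one, add_comm, Real.cosh_add_sinh]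
        · rw [h]
          have : c ξ * -1 = -(c ξ) := by ring
          rw [this, ← Real.cosh_sub_sinh]; ring
      rw [Finset.prod_congr rfl h2, Finset.prod_add]
      apply Finset.sum_congr rfl
      intro t _
      rw [Finset.prod_mul_distrib, chi_sum_left]
      ring
    simp_rw [h1]
    rw [Finset.sum_comm]
    simp_rw [← Finset.mul_sum]
    have h3 : ∀ t ∈ Λ.powerset, (∏ i ∈ t, Real.sinh (c i)) * (∏ i ∈ Λ \ t, Real.cosh (c i)) *
          ∑ x : G, chi (∑ i ∈ t, i) x =
          if t = ∅ then (∏ i ∈ Λ, Real.cosh (c i)) * Fintype.card G else 0 := by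
      intro t ht
      split_ifs with h
      · subst h
        simp [chi_zero_left]
      · rw [sum_chi_of_ne, mul_zero]
        intro h0
        exact h (hind t (Finset.mem_powerset.mp ht) h0)
    rw [Finset.sum_congr rfl h3, Finset.sum_ite_eq' (Λ.powerset) ∅]
    rw [if_pos (Finset.empty_mem_powerset Λ), mul_comm]
    apply mul_le_mul_of_nonneg_left _ hG.le
    calc ∏ i ∈ Λ, Real.cosh (c i) ≤ ∏ i ∈ Λ, Real.exp (1 / 8) := by
          apply Finset.prod_le_prod
          · intro i _; exact (Real.cosh_pos _).le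
          · intro i _
            refine (Real.cosh_le_exp_half_sq _).trans (Real.exp_le_exp.mpr ?_)
            rw [hcs]; norm_num
      _ = Real.exp (Λ.card / 8) := by
          rw [Finset.prod_const, ← Real.exp_nat_mul]
          congr 1; ring
  -- lower bound by Jensen
  set μ : ℝ := (∑ x ∈ X, u x) / X.card with hμ
  have hlow : (X.card : ℝ) * Real.exp μ ≤ ∑ x ∈ X, Real.exp (u x) := by
    have h1 : ∀ x ∈ X, Real.exp μ * (1 + (u x - μ)) ≤ Real.exp (u x) := by
      intro x _
      have h2 := Real.add_one_le_exp (u x - μ)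
      calc Real.exp μ * (1 + (u x - μ)) ≤ Real.exp μ * Real.exp (u x - μ) :=
            mul_le_mul_of_nonneg_left (by linarith) (Real.exp_pos _).le
        _ = Real.exp (u x) := by rw [← Real.exp_add]; congr 1; ring
    have h3 := Finset.sum_le_sum h1
    rw [← Finset.mul_sum, Finset.sum_add_distrib, Finset.sum_sub_distrib] at h3
    have h4 : ∑ x ∈ X, u x = X.card * μ := by rw [hμ]; field_simp
    rw [h4] at h3
    simp only [Finset.sum_const, nsmul_eq_mul, mul_one] at h3
    nlinarith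
  have hμ1 : (Λ.card : ℝ) / 4 ≤ μ := by
    have h1 : ∑ x ∈ X, u x = ∑ ξ ∈ Λ, |∑ x ∈ X, chi ξ x| / 2 := by
      rw [hu]
      simp only
      rw [Finset.sum_comm]
      apply Finset.sum_congr rfl
      intro ξ _
      rw [← Finset.mul_sum, hcabs]
    have h2 : (Λ.card : ℝ) * ((X.card : ℝ) / 4) ≤ ∑ ξ ∈ Λ, |∑ x ∈ X, chi ξ x| / 2 := by
      rw [← nsmul_eq_mul]
      apply Finset.card_nsmul_le_sum
      intro ξ hξ
      have := hbig ξ hξ
      linarith
    rw [hμ, le_div_iff₀ hXc, h1]
    refine le_trans (le_of_eq ?_) h2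
    ring
  have h5 : (X.card : ℝ) * Real.exp (Λ.card / 4) ≤ Fintype.card G * Real.exp (Λ.card / 8) := by
    calc (X.card : ℝ) * Real.exp (Λ.card / 4) ≤ (X.card : ℝ) * Real.exp μ :=
          mul_le_mul_of_nonneg_left (Real.exp_le_exp.mpr hμ1) hXc.le
      _ ≤ ∑ x ∈ X, Real.exp (u x) := hlow
      _ ≤ ∑ x : G, Real.exp (u x) := Finset.sum_le_sum_of_subset_of_nonneg (Finset.subset_univ _)
          (fun _ _ _ => (Real.exp_pos _).le)
      _ ≤ _ := hup
  have h6 : Real.exp (Λ.card / 8) ≤ (Fintype.card G : ℝ) / X.card := by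
    rw [le_div_iff₀ hXc]
    have e : Real.exp ((Λ.card : ℝ) / 4) = Real.exp (Λ.card / 8) * Real.exp (Λ.card / 8) := by
      rw [← Real.exp_add]; congr 1; ring
    rw [e] at h5
    have hp := Real.exp_pos ((Λ.card : ℝ) / 8)
    have : (Real.exp (Λ.card / 8) * X.card) * Real.exp (Λ.card / 8) ≤
      Fintype.card G * Real.exp (Λ.card / 8) := by linarith
    exact le_of_mul_le_mul_right this hp
  have h7 := Real.log_le_log (Real.exp_pos _) h6
  rw [Real.log_exp] at h7
  linarith

end H20.KM
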