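import Pool.Agent.H20.KM.Sift

/-! # Density increment in a finite elementary abelian 2-group. -/

open Finset BigOperators

set_option linter.unusedSectionVars false

namespace H20.KM

theorem pow_cmp (p : ℕ) (hp : 14 ≤ p) : 64 * ((11 : ℝ) / 10) ^ (4 * p) ≤ 2 ^ p := by
  induction p, hp using Nat.le_induction with
  | base => norm_num
  | succ p hp ih =>
    have e : (4 * (p + 1)) = 4 * p + 4 := by ring
    rw [e, pow_add, pow_succ]
    have h1 : ((11 : ℝ) / 10) ^ 4 ≤ 2 := by norm_num
    have h2 : 0 ≤ 64 * ((11 : ℝ) / 10) ^ (4 * p) := by positivity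
    calc 64 * (((11 : ℝ) / 10) ^ (4 * p) * (11 / 10) ^ 4)
        = (64 * ((11 : ℝ) / 10) ^ (4 * p)) * (11 / 10) ^ 4 := by ring
      _ ≤ (64 * ((11 : ℝ) / 10) ^ (4 * p)) * 2 := mul_le_mul_of_nonneg_left h1 h2
      _ ≤ 2 ^ p * 2 := mul_le_mul_of_nonneg_right ih (by norm_num)

variable {G : Type*} [AddCommGroup G] [Module (ZMod 2) G] [Fintype G] [DecidableEq G]

theorem FF_nonneg (A : Finset G) (x : G) : 0 ≤ FF A x := by
  unfold FF
  exact mul_nonneg (by positivity) (conv_ind_nonneg A A x)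

theorem sifting (A : Finset G) (hA : A.Nonempty) (p : ℕ) (hp : 14 ≤ p)
    (hmom : 2 ^ p * (Fintype.card G : ℝ) ≤ ∑ x, FF A x ^ (4 * p)) :
    ∃ A' : Finset G, ((A.card : ℝ) / Fintype.card G) ^ (4 * p) * Fintype.card G ≤ A'.card ∧
      ∑ x ∈ A', ∑ y ∈ A', (if FF A (x + y) < 11 / 10 then (1 : ℝ) else 0) ≤
        1 / 32 * (A'.card : ℝ) ^ 2 := by
  have hG : (0 : ℝ) < Fintype.card G := by exact_mod_cast Fintype.card_pos_iff.mpr ⟨0⟩
  have hAc : (0 : ℝ) < A.card := by exact_mod_cast hA.card_pos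
  set q := 4 * p with hq
  set φ : G → ℝ := fun x => 1 - 32 * (if FF A x < 11 / 10 then (1 : ℝ) else 0) with hφ
  set Az : (Fin q → G) → Finset G := fun z => univ.filter (fun x => ∀ i, x + z i ∈ A) with hAz
  have hprod : ∀ (z : Fin q → G) (x : G), ∏ i, ind A (x + z i) = if x ∈ Az z then 1 else 0 := by
    intro z x
    by_cases h : ∀ i, x + z i ∈ A
    · rw [if_pos (by rw [hAz]; simp [h])]
      apply Finset.prod_eq_one
      intro i _
      simp [ind, h i]
    · rw [if_neg (by rw [hAz]; simpa using h)]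
      push Not at h
      obtain ⟨i, hi⟩ := h
      apply Finset.prod_eq_zero (Finset.mem_univ i)
      simp [ind, hi]
  have hid := moment_identity (ind A) (ind A) φ q
  have hR : ∀ z : Fin q → G, ∑ x, ∑ y, φ (x + y) * ((∏ i, ind A (x + z i)) * ∏ i, ind A (y + z i)) =
      ∑ x ∈ Az z, ∑ y ∈ Az z, φ (x + y) := by
    intro z
    simp_rw [hprod]
    have h1 : ∀ x y : G, φ (x + y) * ((if x ∈ Az z then (1 : ℝ) else 0) * (if y ∈ Az z then 1 else 0)) =
        if x ∈ Az z then (if y ∈ Az z then φ (x + y) else 0) else 0 := by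
      intro x y; split_ifs <;> simp
    simp_rw [h1]
    have h2 : ∀ x : G, (∑ y : G, if x ∈ Az z then (if y ∈ Az z then φ (x + y) else 0) else 0) =
        if x ∈ Az z then ∑ y ∈ Az z, φ (x + y) else 0 := by
      intro x
      split_ifs with h
      · rw [Finset.sum_ite_mem, Finset.univ_inter]
      · simp
    simp_rw [h2]
    rw [Finset.sum_ite_mem, Finset.univ_inter]
  simp_rw [hR] at hid
  -- lower bound for the left-hand side
  have hconv : ∀ x, conv (ind A) (ind A) x = (A.card : ℝ) * A.card / Fintype.card G * FF A x := by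
    intro x; unfold FF; field_simp
  have hL : (Fintype.card G : ℝ) * ((A.card : ℝ) * A.card / Fintype.card G) ^ q ≤
      ∑ x, φ x * conv (ind A) (ind A) x ^ q := by
    have h1 : ∑ x, φ x * conv (ind A) (ind A) x ^ q =
        ((A.card : ℝ) * A.card / Fintype.card G) ^ q * ∑ x, φ x * FF A x ^ q := by
      rw [Finset.mul_sum]
      apply Finset.sum_congr rfl
      intro x _
      rw [hconv, mul_pow]; ring
    have h2 : (Fintype.card G : ℝ) ≤ ∑ x, φ x * FF A x ^ q := by
      have h3 : ∑ x, (FF A x ^ q - 32 * (11 / 10) ^ q) ≤ ∑ x, φ x * FF A x ^ q := by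
        apply Finset.sum_le_sum
        intro x _
        simp only [hφ]
        split_ifs with h
        · have h4 : FF A x ^ q ≤ (11 / 10) ^ q := pow_le_pow_left₀ (FF_nonneg A x) h.le q
          linarith
        · have : (0 : ℝ) ≤ (11 / 10) ^ q := by positivity
          linarith
      have h4 : ∑ x, (FF A x ^ q - 32 * (11 / 10) ^ q) =
          ∑ x, FF A x ^ q - Fintype.card G * (32 * (11 / 10) ^ q) := by
        rw [Finset.sum_sub_distrib]
        simp
      have h5 := pow_cmp p hp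
      rw [← hq] at h5
      have h6 : (2 : ℝ) ≤ 2 ^ p := by
        calc (2 : ℝ) = 2 ^ 1 := by norm_num
          _ ≤ 2 ^ p := pow_le_pow_right₀ (by norm_num) (by omega)
      rw [h4] at h3
      refine le_trans ?_ h3
      have h7 : Fintype.card G * (32 * ((11 : ℝ) / 10) ^ q) ≤ Fintype.card G * (2 ^ p / 2) :=
        mul_le_mul_of_nonneg_left (by linarith) hG.le
      have h8 : (Fintype.card G : ℝ) * 1 ≤ Fintype.card G * (2 ^ p / 2) :=
        mul_le_mul_of_nonneg_left (by linarith) hG.le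
      linarith
    rw [h1, mul_comm]
    exact mul_le_mul_of_nonneg_left h2 (by positivity)
  have hcardz : (Fintype.card (Fin q → G) : ℝ) = (Fintype.card G : ℝ) ^ q := by
    rw [Fintype.card_fun, Fintype.card_fin]; push_cast; rfl
  obtain ⟨z, _, hz⟩ : ∃ z ∈ (univ : Finset (Fin q → G)),
      (((A.card : ℝ) / Fintype.card G) ^ q * Fintype.card G) ^ 2 ≤
        ∑ x ∈ Az z, ∑ y ∈ Az z, φ (x + y) := by
    apply Finset.exists_le_of_sum_le Finset.univ_nonempty
    rw [← hid, Finset.sum_const, nsmul_eq_mul, Finset.card_univ, hcardz]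
    have h1 : (Fintype.card G : ℝ) ^ q * (((A.card : ℝ) / Fintype.card G) ^ q * Fintype.card G) ^ 2 =
        (Fintype.card G : ℝ) * ((Fintype.card G : ℝ) * ((A.card : ℝ) * A.card / Fintype.card G) ^ q) := by
      rw [mul_pow, div_pow (A.card : ℝ), div_pow ((A.card : ℝ) * A.card), mul_pow (A.card : ℝ)]
      field_simp
    rw [h1]
    exact mul_le_mul_of_nonneg_left hL hG.le
  refine ⟨Az z, ?_, ?_⟩
  · have h1 : ∑ x ∈ Az z, ∑ y ∈ Az z, φ (x + y) ≤ ((Az z).card : ℝ) ^ 2 := by
      have h2 : ∀ x ∈ Az z, ∑ y ∈ Az z, φ (x + y) ≤ ((Az z).card : ℝ) := by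
        intro x _
        have h3 : ∀ y ∈ Az z, φ (x + y) ≤ 1 := by
          intro y _
          simp only [hφ]
          split_ifs <;> norm_num
        refine (Finset.sum_le_sum h3).trans ?_
        simp
      refine (Finset.sum_le_sum h2).trans ?_
      rw [Finset.sum_const, nsmul_eq_mul, sq]
    exact le_of_sq_le_sq (hz.trans h1) (by positivity)
  · have h1 : ∑ x ∈ Az z, ∑ y ∈ Az z, φ (x + y) = ((Az z).card : ℝ) ^ 2 - 32 *
        ∑ x ∈ Az z, ∑ y ∈ Az z, (if FF A (x + y) < 11 / 10 then (1 : ℝ) else 0) := by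
      simp only [hφ]
      simp_rw [Finset.sum_sub_distrib, ← Finset.mul_sum]
      simp only [Finset.sum_const, nsmul_eq_mul, mul_one]
      ring
    rw [h1] at hz
    have h2 : 0 ≤ (((A.card : ℝ) / Fintype.card G) ^ q * Fintype.card G) ^ 2 := sq_nonneg _
    linarith

/-- **Density increment.** -/
theorem increment_one (A : Finset G) (hA : A.Nonempty) (p : ℕ) (hp : 14 ≤ p)
    (hmom : 2 ^ p * (Fintype.card G : ℝ) ≤ ∑ x, FF A x ^ (4 * p)) (a : ℝ) (ha : 0 < a)
    (haA : a * Fintype.card G ≤ A.card) (k m : ℕ) (hk : 0 < k) (ε : ℝ) (hε : 0 < ε)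
    (hkε : 2 * Real.exp (-(k * ε ^ 2 / 8)) ≤ ε * a ^ (4 * p) / 8)
    (hm : 6 * m * ε + 2 / 4 ^ m / a ^ (4 * p) ≤ 1 / 32) :
    ∃ V : Submodule (ZMod 2) G, ∃ K : ℕ,
      Module.finrank (ZMod 2) G ≤ Module.finrank (ZMod 2) V + K ∧
      (K : ℝ) ≤ 8 * (k * Real.log (1 / a ^ (4 * p)) + Real.log 2) ∧
      ∃ y : G, 33 / 32 * ((A.card : ℝ) / Fintype.card G) * Nat.card V ≤
        Nat.card {v : V // y + (v : G) ∈ A} := by
  classical
  have hG : (0 : ℝ) < Fintype.card G := by exact_mod_cast Fintype.card_pos_iff.mpr ⟨0⟩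
  have hAc : (0 : ℝ) < A.card := by exact_mod_cast hA.card_pos
  obtain ⟨A', hA'card, hA'bad⟩ := sifting A hA p hp hmom
  have haA2 : a ≤ (A.card : ℝ) / Fintype.card G := by rwa [le_div_iff₀ hG]
  have ha' : 0 < a ^ (4 * p) := by positivity
  have haA' : a ^ (4 * p) * Fintype.card G ≤ A'.card := by
    refine le_trans ?_ hA'card
    exact mul_le_mul_of_nonneg_right (pow_le_pow_left₀ ha.le haA2 _) hG.le
  have hA'pos : (0 : ℝ) < A'.card := lt_of_lt_of_le (by positivity) haA'
  have hA' : A'.Nonempty := by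
    rw [← Finset.card_pos]; exact_mod_cast hA'pos
  set f : G → ℝ := fun x => if FF A x < 11 / 10 then 0 else 1 with hf
  have hf1 : ∀ x, |f x| ≤ 1 := by
    intro x; simp only [hf]; split_ifs <;> simp
  obtain ⟨V, K, hVK, hK, hV⟩ := ap_subspace A' A' hA' hA' f hf1 (a ^ (4 * p)) ha' haA' haA' k m hk ε hε hkε
  refine ⟨V, K, hVK, hK, ?_⟩
  -- the double average at zero
  have hav : ∀ x, av A' (av A' f) x * (A'.card : ℝ) ^ 2 = ∑ b ∈ A', ∑ c ∈ A', f (x + b + c) := by
    intro x
    unfold av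
    rw [← Finset.sum_div, div_div, div_mul_eq_mul_div, sq]
    field_simp
  have h0 : 31 / 32 ≤ av A' (av A' f) 0 := by
    have h1 := hav 0
    have h2 : ∑ b ∈ A', ∑ c ∈ A', f (0 + b + c) = (A'.card : ℝ) ^ 2 -
        ∑ x ∈ A', ∑ y ∈ A', (if FF A (x + y) < 11 / 10 then (1 : ℝ) else 0) := by
      have h3 : ∀ b c : G, f (0 + b + c) = 1 - (if FF A (b + c) < 11 / 10 then (1 : ℝ) else 0) := by
        intro b c
        simp only [hf, zero_add]
        split_ifs <;> simp
      simp_rw [h3, Finset.sum_sub_distrib]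
      simp only [Finset.sum_const, nsmul_eq_mul, mul_one]
      ring
    rw [h2] at h1
    have h4 : 31 / 32 * (A'.card : ℝ) ^ 2 ≤ av A' (av A' f) 0 * (A'.card : ℝ) ^ 2 := by
      rw [h1]; linarith
    exact le_of_mul_le_mul_right h4 (by positivity)
  have hv : ∀ v ∈ V, 15 / 16 ≤ av A' (av A' f) v := by
    intro v hv
    have h1 := (hV v hv 0).trans hm
    rw [zero_add] at h1
    have h2 := (abs_le.mp h1).1
    linarith
  -- sum over V
  have hsum : ∀ v ∈ V, 33 / 32 * (A'.card : ℝ) ^ 2 ≤ ∑ b ∈ A', ∑ c ∈ A', FF A (v + b + c) := by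
    intro v hvV
    have h1 : ∑ b ∈ A', ∑ c ∈ A', 11 / 10 * f (v + b + c) ≤ ∑ b ∈ A', ∑ c ∈ A', FF A (v + b + c) := by
      apply Finset.sum_le_sum
      intro b _
      apply Finset.sum_le_sum
      intro c _
      simp only [hf]
      split_ifs with h
      · rw [mul_zero]; exact FF_nonneg A _
      · rw [mul_one]; exact not_lt.mp h
    simp_rw [← Finset.mul_sum] at h1
    rw [← hav v] at h1
    have h2 := hv v hvV
    have h3 : 15 / 16 * (A'.card : ℝ) ^ 2 ≤ av A' (av A' f) v * (A'.card : ℝ) ^ 2 :=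
      mul_le_mul_of_nonneg_right h2 (by positivity)
    linarith
  by_contra hcon
  push Not at hcon
  have hVcard : (0 : ℝ) < Fintype.card V := by exact_mod_cast Fintype.card_pos_iff.mpr ⟨0⟩
  -- count
  have hcount : ∀ y : G, ∑ v : V, ind A (y + v) < 33 / 32 * ((A.card : ℝ) / Fintype.card G) * Fintype.card V := by
    intro y
    have h1 := hcon y
    rw [Nat.card_eq_fintype_card, Nat.card_eq_fintype_card, Fintype.card_subtype] at h1
    refine lt_of_le_of_lt (le_of_eq ?_) h1
    unfold ind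
    rw [Finset.sum_boole]
  have hFFsum : ∀ x : G, ∑ v : V, FF A (x + v) < 33 / 32 * Fintype.card V := by
    intro x
    have h1 : ∑ v : V, FF A (x + v) = (Fintype.card G : ℝ) / (A.card * A.card) *
        ∑ z : G, (∑ v : V, ind A (x + z + v)) * ind A z := by
      unfold FF conv
      rw [← Finset.mul_sum]
      congr 1
      rw [Finset.sum_comm]
      apply Finset.sum_congr rfl
      intro z _
      rw [Finset.sum_mul]
      apply Finset.sum_congr rfl
      intro v _
      congr 2
      abel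
    rw [h1]
    have h2 : ∑ z : G, (∑ v : V, ind A (x + z + v)) * ind A z <
        ∑ z : G, (33 / 32 * ((A.card : ℝ) / Fintype.card G) * Fintype.card V) * ind A z := by
      apply Finset.sum_lt_sum
      · intro z _
        apply mul_le_mul_of_nonneg_right (hcount _).le
        unfold ind; split_ifs <;> simp
      · obtain ⟨z, hz⟩ := hA
        refine ⟨z, Finset.mem_univ _, ?_⟩
        have : ind A z = 1 := by simp [ind, hz]
        rw [this, mul_one, mul_one]
        exact hcount _
    rw [← Finset.mul_sum, sum_ind] at h2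
    calc (Fintype.card G : ℝ) / (A.card * A.card) * ∑ z : G, (∑ v : V, ind A (x + z + v)) * ind A z
        < (Fintype.card G : ℝ) / (A.card * A.card) *
          (33 / 32 * ((A.card : ℝ) / Fintype.card G) * Fintype.card V * A.card) :=
          mul_lt_mul_of_pos_left h2 (by positivity)
      _ = 33 / 32 * Fintype.card V := by field_simp
  have hfin : ∑ v : V, ∑ b ∈ A', ∑ c ∈ A', FF A (v + b + c) < 33 / 32 * (A'.card : ℝ) ^ 2 * Fintype.card V := by
    have h1 : ∑ v : V, ∑ b ∈ A', ∑ c ∈ A', FF A (v + b + c) =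
        ∑ b ∈ A', ∑ c ∈ A', ∑ v : V, FF A (b + c + v) := by
      rw [Finset.sum_comm]
      apply Finset.sum_congr rfl
      intro b _
      rw [Finset.sum_comm]
      apply Finset.sum_congr rfl
      intro c _
      apply Finset.sum_congr rfl
      intro v _
      congr 1
      abel
    rw [h1]
    calc ∑ b ∈ A', ∑ c ∈ A', ∑ v : V, FF A (b + c + v)
        < ∑ b ∈ A', ∑ c ∈ A', 33 / 32 * (Fintype.card V : ℝ) := by
          apply Finset.sum_lt_sum_of_nonempty hA'
          intro b _
          apply Finset.sum_lt_sum_of_nonempty hA'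
          intro c _
          exact hFFsum _
      _ = _ := by
          simp only [Finset.sum_const, nsmul_eq_mul]
          ring
  have hlow : 33 / 32 * (A'.card : ℝ) ^ 2 * Fintype.card V ≤
      ∑ v : V, ∑ b ∈ A', ∑ c ∈ A', FF A (v + b + c) := by
    have h1 : ∑ v : V, 33 / 32 * (A'.card : ℝ) ^ 2 ≤ ∑ v : V, ∑ b ∈ A', ∑ c ∈ A', FF A (v + b + c) :=
      Finset.sum_le_sum (fun v _ => hsum v v.2)
    refine le_trans (le_of_eq ?_) h1
    simp only [Finset.sum_const, Finset.card_univ, nsmul_eq_mul]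
    ring
  linarith

end H20.KM
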