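import Pool.Agent.H20.KM.Sampling

/-! # Croot–Sisask almost periodicity in a finite elementary abelian 2-group. -/

open Finset BigOperators

namespace H20.KM

set_option linter.unusedSectionVars false

variable {G : Type*} [AddCommGroup G] [Fintype G]

/-- average of `f` over the translate `x + A` -/
noncomputable def av (A : Finset G) (f : G → ℝ) (x : G) : ℝ :=
  (∑ a ∈ A, f (x + a)) / (A.card : ℝ)

theorem abs_av_le (A : Finset G) (f : G → ℝ) (c : ℝ) (hc : 0 ≤ c) (x : G)
    (hf : ∀ a ∈ A, |f (x + a)| ≤ c) : |av A f x| ≤ c := by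
  unfold av
  rcases A.eq_empty_or_nonempty with h | h
  · simp [h, hc]
  · have hcard : (0 : ℝ) < A.card := by exact_mod_cast h.card_pos
    rw [abs_div, abs_of_pos hcard, div_le_iff₀ hcard]
    calc |∑ a ∈ A, f (x + a)| ≤ ∑ a ∈ A, |f (x + a)| := Finset.abs_sum_le_sum_abs _ _
      _ ≤ ∑ a ∈ A, c := Finset.sum_le_sum hf
      _ = c * A.card := by rw [Finset.sum_const, nsmul_eq_mul]; ring

theorem av_sub (A : Finset G) (f g : G → ℝ) (x : G) :
    av A f x - av A g x = av A (fun y => f y - g y) x := by
  unfold av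
  rw [← sub_div, ← Finset.sum_sub_distrib]

theorem av_comm (A B : Finset G) (f : G → ℝ) (x : G) :
    av A (av B f) x = av B (av A f) x := by
  unfold av
  simp_rw [← Finset.sum_div]
  rw [div_div, div_div, mul_comm, Finset.sum_comm]
  congr 1
  apply Finset.sum_congr rfl
  intro a _
  apply Finset.sum_congr rfl
  intro b _
  congr 1
  abel

theorem av_translate (A : Finset G) (f : G → ℝ) (t x : G) :
    av A (fun y => f (y + t)) x = av A f (x + t) := by
  unfold av
  congr 1
  apply Finset.sum_congr rfl
  intro a _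
  congr 1
  abel

theorem almost_periods [DecidableEq G] (h2 : ∀ x : G, x + x = 0) (A : Finset G) (hA : A.Nonempty)
    (f : G → ℝ) (hf : ∀ x, |f x| ≤ 1) (k : ℕ) (hk : 0 < k) (ε η : ℝ) (hε : 0 < ε) (hη : 0 < η)
    (hkη : 2 * Real.exp (-(k * ε ^ 2 / 8)) ≤ η / 2) :
    ∃ X : Finset G, ((A.card : ℝ) / Fintype.card G) ^ k / 2 * Fintype.card G ≤ X.card ∧
      ∀ t ∈ X, ∀ t' ∈ X,
        ((univ.filter (fun x => 2 * ε < |av A f (x + t) - av A f (x + t')|)).card : ℝ) ≤
          2 * η * Fintype.card G := by
  classical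
  have hG : (0 : ℝ) < Fintype.card G := by exact_mod_cast Fintype.card_pos_iff.mpr ⟨0⟩
  have hAc : (0 : ℝ) < A.card := by exact_mod_cast hA.card_pos
  set P : Finset (Fin k → G) := Fintype.piFinset (fun _ : Fin k => A) with hP
  set bad : (Fin k → G) → Finset G := fun a =>
    univ.filter (fun x => ε < |(∑ i, f (x + a i)) / k - av A f x|) with hbad
  have hPcard : (P.card : ℝ) = (A.card : ℝ) ^ k := by
    rw [hP, Fintype.card_piFinset_const]
    push_cast
    rfl
  -- total number of bad pairs
  have htot : ∑ a ∈ P, ((bad a).card : ℝ) ≤ Fintype.card G * (η / 2 * (A.card : ℝ) ^ k) := by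
    have e1 : ∑ a ∈ P, ((bad a).card : ℝ) =
        ∑ x : G, ((P.filter (fun a => ε < |(∑ i, f (x + a i)) / k - av A f x|)).card : ℝ) := by
      simp only [hbad, Finset.card_filter, Nat.cast_sum]
      rw [Finset.sum_comm]
    rw [e1]
    calc _ ≤ ∑ x : G, (η / 2 * (A.card : ℝ) ^ k) := by
          apply Finset.sum_le_sum
          intro x _
          refine (tail_two A hA (fun a => f (x + a)) (fun a _ => hf _) (av A f x) rfl k hk ε hε).trans ?_
          exact mul_le_mul_of_nonneg_right hkη (by positivity)
      _ = _ := by rw [Finset.sum_const, nsmul_eq_mul]; rfl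
  set L : Finset (Fin k → G) := P.filter (fun a => ((bad a).card : ℝ) ≤ η * Fintype.card G) with hL
  have hLcard : (A.card : ℝ) ^ k / 2 ≤ L.card := by
    have h1 : ((P.filter (fun a => ¬ ((bad a).card : ℝ) ≤ η * Fintype.card G)).card : ℝ) *
        (η * Fintype.card G) ≤ ∑ a ∈ P, ((bad a).card : ℝ) := by
      have h3 := Finset.card_nsmul_le_sum (P.filter (fun a => ¬ ((bad a).card : ℝ) ≤ η * Fintype.card G))
        (fun a => ((bad a).card : ℝ)) (η * Fintype.card G) (by
          intro a ha
          rw [Finset.mem_filter] at ha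
          exact (not_le.mp ha.2).le)
      rw [nsmul_eq_mul] at h3
      refine h3.trans (Finset.sum_le_sum_of_subset_of_nonneg (Finset.filter_subset _ _) ?_)
      intro _ _ _
      positivity
    have h4 : (L.card : ℝ) + ((P.filter (fun a => ¬ ((bad a).card : ℝ) ≤ η * Fintype.card G)).card : ℝ)
        = (A.card : ℝ) ^ k := by
      rw [← hPcard, hL]
      exact_mod_cast Finset.card_filter_add_card_filter_not (s := P)
        (fun a => ((bad a).card : ℝ) ≤ η * Fintype.card G)
    have h5 := h1.trans htot
    have h6 : ((P.filter (fun a => ¬ ((bad a).card : ℝ) ≤ η * Fintype.card G)).card : ℝ) ≤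
        (A.card : ℝ) ^ k / 2 := by
      have hpos : 0 < η * Fintype.card G := by positivity
      refine le_of_mul_le_mul_right ?_ hpos
      refine h5.trans (le_of_eq ?_)
      ring
    linarith
  -- double counting
  set T : (Fin k → G) → Finset G := fun z => univ.filter (fun t => (fun i => z i + t) ∈ L) with hT
  have hdc : ∑ z : Fin k → G, ((T z).card : ℝ) = L.card * Fintype.card G := by
    have e1 : ∑ z : Fin k → G, ((T z).card : ℝ) =
        ∑ t : G, ((univ.filter (fun z : Fin k → G => (fun i => z i + t) ∈ L)).card : ℝ) := by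
      simp only [hT, Finset.card_filter, Nat.cast_sum]
      rw [Finset.sum_comm]
    rw [e1]
    have e2 : ∀ t : G, ((univ.filter (fun z : Fin k → G => (fun i => z i + t) ∈ L)).card : ℝ) =
        L.card := by
      intro t
      norm_cast
      apply Finset.card_bij (fun z _ => fun i => z i + t)
      · intro z hz
        exact (Finset.mem_filter.mp hz).2
      · intro z _ z' _ h
        funext i
        have := congrFun h i
        exact add_right_cancel this
      · intro y hy
        refine ⟨fun i => y i + t, ?_, ?_⟩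
        · rw [Finset.mem_filter]
          refine ⟨Finset.mem_univ _, ?_⟩
          have : (fun i => y i + t + t) = y := by
            funext i
            rw [add_assoc, h2, add_zero]
          rw [this]; exact hy
        · funext i
          show y i + t + t = y i
          rw [add_assoc, h2, add_zero]
    rw [Finset.sum_congr rfl (fun t _ => e2 t), Finset.sum_const, nsmul_eq_mul, mul_comm]
    rfl
  obtain ⟨z, _, hz⟩ : ∃ z ∈ (univ : Finset (Fin k → G)),
      ((A.card : ℝ) / Fintype.card G) ^ k / 2 * Fintype.card G ≤ ((T z).card : ℝ) := by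
    apply Finset.exists_le_of_sum_le
    · exact Finset.univ_nonempty
    · rw [hdc, Finset.sum_const, nsmul_eq_mul, Finset.card_univ]
      have e : (Fintype.card (Fin k → G) : ℝ) = (Fintype.card G : ℝ) ^ k := by
        rw [Fintype.card_fun, Fintype.card_fin]; push_cast; rfl
      rw [e, div_pow]
      have hGk : (0 : ℝ) < (Fintype.card G : ℝ) ^ k := by positivity
      have : (Fintype.card G : ℝ) ^ k * ((A.card : ℝ) ^ k / (Fintype.card G : ℝ) ^ k / 2 * Fintype.card G)
          = (A.card : ℝ) ^ k / 2 * Fintype.card G := by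
        field_simp
      rw [this]
      exact mul_le_mul_of_nonneg_right hLcard hG.le
  refine ⟨T z, hz, ?_⟩
  have hmain : ∀ t ∈ T z, ((univ.filter (fun x => ε < |(∑ i, f (x + z i)) / k - av A f (x + t)|)).card : ℝ)
      ≤ η * Fintype.card G := by
    intro t ht
    have h1 : (fun i => z i + t) ∈ L := (Finset.mem_filter.mp ht).2
    have h3 := (Finset.mem_filter.mp h1).2
    refine le_trans ?_ h3
    norm_cast
    apply Finset.card_le_card_of_injOn (fun x => x + t)
    · intro x hx
      have hx' := (Finset.mem_filter.mp hx).2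
      rw [hbad]
      simp only [Finset.coe_filter, Finset.mem_univ, true_and, Set.mem_ofPred_eq]
      have : ∀ i, x + t + (z i + t) = x + z i := by
        intro i
        have : x + t + (z i + t) = x + z i + (t + t) := by abel
        rw [this, h2, add_zero]
      simp_rw [this]
      exact hx'
    · intro x _ y _ h
      exact add_right_cancel h
  intro t ht t' ht'
  have h1 := hmain t ht
  have h3 := hmain t' ht'
  have h4 : univ.filter (fun x => 2 * ε < |av A f (x + t) - av A f (x + t')|) ⊆
      univ.filter (fun x => ε < |(∑ i, f (x + z i)) / k - av A f (x + t)|) ∪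
      univ.filter (fun x => ε < |(∑ i, f (x + z i)) / k - av A f (x + t')|) := by
    intro x hx
    rw [Finset.mem_filter] at hx
    rw [Finset.mem_union, Finset.mem_filter, Finset.mem_filter]
    by_contra hcon
    push Not at hcon
    have h5 := hcon.1 (Finset.mem_univ _)
    have h6 := hcon.2 (Finset.mem_univ _)
    have h7 := hx.2
    have h8 : |av A f (x + t) - av A f (x + t')| ≤
        |(∑ i, f (x + z i)) / k - av A f (x + t)| + |(∑ i, f (x + z i)) / k - av A f (x + t')| := by
      have := abs_sub_le (av A f (x + t)) ((∑ i, f (x + z i)) / k) (av A f (x + t'))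
      rw [abs_sub_comm (av A f (x + t)) ((∑ i, f (x + z i)) / k)] at this
      exact this
    linarith
  have h5 : ((univ.filter (fun x => 2 * ε < |av A f (x + t) - av A f (x + t')|)).card : ℝ) ≤
      ((univ.filter (fun x => ε < |(∑ i, f (x + z i)) / k - av A f (x + t)|)).card : ℝ) +
      ((univ.filter (fun x => ε < |(∑ i, f (x + z i)) / k - av A f (x + t')|)).card : ℝ) := by
    exact_mod_cast (Finset.card_le_card h4).trans (Finset.card_union_le _ _)
  linarith

/-- sup-norm almost periods for a double average -/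
theorem sup_periods [DecidableEq G] (h2 : ∀ x : G, x + x = 0) (A B : Finset G) (hA : A.Nonempty)
    (hB : B.Nonempty)
    (f : G → ℝ) (hf : ∀ x, |f x| ≤ 1) (k : ℕ) (hk : 0 < k) (ε : ℝ) (hε : 0 < ε)
    (hkη : 2 * Real.exp (-(k * ε ^ 2 / 8)) ≤ ε * ((B.card : ℝ) / Fintype.card G) / 8) :
    ∃ X : Finset G, ((A.card : ℝ) / Fintype.card G) ^ k / 2 * Fintype.card G ≤ X.card ∧
      ∀ t ∈ X, ∀ t' ∈ X, ∀ x, |av B (av A f) (x + t) - av B (av A f) (x + t')| ≤ 3 * ε := by
  have hG : (0 : ℝ) < Fintype.card G := by exact_mod_cast Fintype.card_pos_iff.mpr ⟨0⟩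
  have hBc : (0 : ℝ) < B.card := by exact_mod_cast hB.card_pos
  obtain ⟨X, hX, hX2⟩ := almost_periods h2 A hA f hf k hk ε (ε * ((B.card : ℝ) / Fintype.card G) / 4)
    hε (by positivity) (by rw [show ε * ((B.card : ℝ) / Fintype.card G) / 4 / 2 =
      ε * ((B.card : ℝ) / Fintype.card G) / 8 by ring]; exact hkη)
  refine ⟨X, hX, ?_⟩
  intro t ht t' ht' x
  have h1 := hX2 t ht t' ht'
  set g := av A f with hg
  have hg1 : ∀ x, |g x| ≤ 1 := fun x => abs_av_le A f 1 zero_le_one x (fun a _ => hf _)
  unfold av
  rw [← sub_div, ← Finset.sum_sub_distrib, abs_div, abs_of_pos hBc, div_le_iff₀ hBc]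
  have h3 : ∀ b ∈ B, |g (x + t + b) - g (x + t' + b)| ≤
      2 * ε + 2 * (if 2 * ε < |g ((x + b) + t) - g ((x + b) + t')| then 1 else 0) := by
    intro b _
    have e1 : x + t + b = (x + b) + t := by abel
    have e2 : x + t' + b = (x + b) + t' := by abel
    rw [e1, e2]
    split_ifs with h
    · have h5 := abs_le.mp (hg1 (x + b + t))
      have h6 := abs_le.mp (hg1 (x + b + t'))
      have : |g (x + b + t) - g (x + b + t')| ≤ 2 := by
        rw [abs_le]; constructor <;> linarith
      linarith
    · linarith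
  have h4 : ∑ b ∈ B, (if 2 * ε < |g ((x + b) + t) - g ((x + b) + t')| then (1 : ℝ) else 0) ≤
      (univ.filter (fun y => 2 * ε < |g (y + t) - g (y + t')|)).card := by
    rw [← Finset.sum_filter, Finset.sum_const, nsmul_eq_mul, mul_one]
    norm_cast
    apply Finset.card_le_card_of_injOn (fun b => x + b)
    · intro b hb
      have := (Finset.mem_filter.mp hb).2
      simp only [Finset.coe_filter, Finset.mem_univ, true_and, Set.mem_ofPred_eq]
      exact this
    · intro a _ b _ h
      exact add_left_cancel h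
  calc |∑ b ∈ B, (g (x + t + b) - g (x + t' + b))| ≤ ∑ b ∈ B, |g (x + t + b) - g (x + t' + b)| :=
        Finset.abs_sum_le_sum_abs _ _
    _ ≤ ∑ b ∈ B, (2 * ε + 2 * (if 2 * ε < |g ((x + b) + t) - g ((x + b) + t')| then 1 else 0)) :=
        Finset.sum_le_sum h3
    _ = 2 * ε * B.card + 2 * ∑ b ∈ B, (if 2 * ε < |g ((x + b) + t) - g ((x + b) + t')| then (1 : ℝ) else 0) := by
        rw [Finset.sum_add_distrib, Finset.sum_const, nsmul_eq_mul, ← Finset.mul_sum]; ring
    _ ≤ 2 * ε * B.card + 2 * (2 * (ε * ((B.card : ℝ) / Fintype.card G) / 4) * Fintype.card G) := by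
        linarith
    _ = 3 * ε * B.card := by field_simp; ring

end H20.KM
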