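import Mathlib

/-! # Sampling lemma (Hoeffding type), elementary form on finite sets. -/

open Finset BigOperators

namespace H20.KM

/-- exponential moment bound for a bounded function on a finite set -/
theorem exp_moment {ι : Type*} (A : Finset ι) (hA : A.Nonempty) (f : ι → ℝ)
    (hf : ∀ a ∈ A, |f a| ≤ 1) (μ : ℝ) (hμ : μ = (∑ a ∈ A, f a) / (A.card : ℝ)) (t : ℝ) :
    ∑ a ∈ A, Real.exp (t * (f a - μ)) ≤ (A.card : ℝ) * Real.exp (2 * t ^ 2) := by
  have hc : (0 : ℝ) < A.card := by exact_mod_cast hA.card_pos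
  have hsum : ∑ b ∈ A, f b = A.card * μ := by rw [hμ]; field_simp
  -- Jensen
  have hJ : (A.card : ℝ) * Real.exp (-(t * μ)) ≤ ∑ b ∈ A, Real.exp (-(t * f b)) := by
    have h1 : ∀ b ∈ A, Real.exp (-(t * μ)) * (1 + (-(t * f b) + t * μ)) ≤ Real.exp (-(t * f b)) := by
      intro b _
      have h2 : (1 + (-(t * f b) + t * μ)) ≤ Real.exp (-(t * f b) + t * μ) := by
        have := Real.add_one_le_exp (-(t * f b) + t * μ)
        linarith
      calc Real.exp (-(t * μ)) * (1 + (-(t * f b) + t * μ))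
          ≤ Real.exp (-(t * μ)) * Real.exp (-(t * f b) + t * μ) :=
            mul_le_mul_of_nonneg_left h2 (Real.exp_pos _).le
        _ = Real.exp (-(t * f b)) := by rw [← Real.exp_add]; congr 1; ring
    have h3 := Finset.sum_le_sum h1
    rw [← Finset.mul_sum] at h3
    have h4 : ∑ b ∈ A, (1 + (-(t * f b) + t * μ)) = A.card := by
      have : ∀ b ∈ A, (1 + (-(t * f b) + t * μ)) = (1 + t * μ) - t * f b := by
        intro b _; ring
      rw [Finset.sum_congr rfl this, Finset.sum_sub_distrib, ← Finset.mul_sum, hsum]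
      simp
      ring
    rw [h4] at h3
    linarith
  -- product
  have hP : (A.card : ℝ) * ∑ a ∈ A, Real.exp (t * (f a - μ)) ≤
      ∑ a ∈ A, ∑ b ∈ A, Real.exp (t * (f a - f b)) := by
    have e1 : (A.card : ℝ) * ∑ a ∈ A, Real.exp (t * (f a - μ)) =
        (∑ a ∈ A, Real.exp (t * f a)) * ((A.card : ℝ) * Real.exp (-(t * μ))) := by
      rw [Finset.mul_sum, Finset.sum_mul]
      apply Finset.sum_congr rfl
      intro a _
      have : Real.exp (t * (f a - μ)) = Real.exp (t * f a) * Real.exp (-(t * μ)) := by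
        rw [← Real.exp_add]; congr 1; ring
      rw [this]; ring
    have e2 : ∑ a ∈ A, ∑ b ∈ A, Real.exp (t * (f a - f b)) =
        (∑ a ∈ A, Real.exp (t * f a)) * ∑ b ∈ A, Real.exp (-(t * f b)) := by
      rw [Finset.sum_mul_sum]
      apply Finset.sum_congr rfl
      intro a _
      apply Finset.sum_congr rfl
      intro b _
      rw [← Real.exp_add]; congr 1; ring
    rw [e1, e2]
    exact mul_le_mul_of_nonneg_left hJ (Finset.sum_nonneg fun _ _ => (Real.exp_pos _).le)
  have hS : ∑ a ∈ A, ∑ b ∈ A, Real.exp (t * (f a - f b)) =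
      ∑ a ∈ A, ∑ b ∈ A, Real.cosh (t * (f a - f b)) := by
    have h1 : ∑ a ∈ A, ∑ b ∈ A, Real.exp (-(t * (f a - f b))) =
        ∑ a ∈ A, ∑ b ∈ A, Real.exp (t * (f a - f b)) := by
      rw [Finset.sum_comm]
      apply Finset.sum_congr rfl
      intro a _
      apply Finset.sum_congr rfl
      intro b _
      congr 1; ring
    have h2 : ∑ a ∈ A, ∑ b ∈ A, Real.cosh (t * (f a - f b)) =
        (∑ a ∈ A, ∑ b ∈ A, Real.exp (t * (f a - f b)) +
          ∑ a ∈ A, ∑ b ∈ A, Real.exp (-(t * (f a - f b)))) / 2 := by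
      simp_rw [Real.cosh_eq]
      rw [← Finset.sum_add_distrib, Finset.sum_div]
      apply Finset.sum_congr rfl
      intro a _
      rw [← Finset.sum_add_distrib, Finset.sum_div]
    rw [h2, h1]; ring
  have hC : ∑ a ∈ A, ∑ b ∈ A, Real.cosh (t * (f a - f b)) ≤
      (A.card : ℝ) * ((A.card : ℝ) * Real.exp (2 * t ^ 2)) := by
    have : ∀ a ∈ A, ∑ b ∈ A, Real.cosh (t * (f a - f b)) ≤ (A.card : ℝ) * Real.exp (2 * t ^ 2) := by
      intro a ha
      rw [← nsmul_eq_mul]
      apply Finset.sum_le_card_nsmul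
      intro b hb
      refine (Real.cosh_le_exp_half_sq _).trans (Real.exp_le_exp.mpr ?_)
      have h1 := abs_le.mp (hf a ha)
      have h2 := abs_le.mp (hf b hb)
      have h3 : (f a - f b) ^ 2 ≤ 4 := by nlinarith
      have h4 : (t * (f a - f b)) ^ 2 = t ^ 2 * (f a - f b) ^ 2 := by ring
      rw [h4]
      nlinarith [sq_nonneg t]
    have h2 := Finset.sum_le_card_nsmul A _ _ this
    rwa [nsmul_eq_mul] at h2
  have := hP.trans (hS.le.trans hC)
  exact le_of_mul_le_mul_left this hc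

/-- one-sided tail -/
theorem tail_one {ι : Type*} (A : Finset ι) (hA : A.Nonempty) (f : ι → ℝ)
    (hf : ∀ a ∈ A, |f a| ≤ 1) (μ : ℝ) (hμ : μ = (∑ a ∈ A, f a) / (A.card : ℝ)) (k : ℕ)
    (hk : 0 < k) (ε : ℝ) (hε : 0 < ε) :
    (((Fintype.piFinset (fun _ : Fin k => A)).filter
      (fun a => ε < (∑ i, f (a i)) / k - μ)).card : ℝ) ≤
      Real.exp (-(k * ε ^ 2 / 8)) * (A.card : ℝ) ^ k := by
  classical
  have hk' : (0 : ℝ) < k := by exact_mod_cast hk
  set t : ℝ := ε / 4 with ht
  have hexp : ∑ a ∈ Fintype.piFinset (fun _ : Fin k => A), Real.exp (t * (∑ i, (f (a i) - μ))) ≤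
      ((A.card : ℝ) * Real.exp (2 * t ^ 2)) ^ k := by
    have h1 : ∑ a ∈ Fintype.piFinset (fun _ : Fin k => A), Real.exp (t * (∑ i, (f (a i) - μ))) =
        (∑ a ∈ A, Real.exp (t * (f a - μ))) ^ k := by
      have := Finset.prod_univ_sum (fun _ : Fin k => A) (fun _ a => Real.exp (t * (f a - μ)))
      rw [Finset.prod_const, Finset.card_univ, Fintype.card_fin] at this
      rw [this]
      apply Finset.sum_congr rfl
      intro a _
      rw [Finset.mul_sum, Real.exp_sum]
    rw [h1]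
    exact pow_le_pow_left₀ (Finset.sum_nonneg fun _ _ => (Real.exp_pos _).le)
      (exp_moment A hA f hf μ hμ t) k
  have hlow : (((Fintype.piFinset (fun _ : Fin k => A)).filter
      (fun a => ε < (∑ i, f (a i)) / k - μ)).card : ℝ) * Real.exp (t * (k * ε)) ≤
      ∑ a ∈ Fintype.piFinset (fun _ : Fin k => A), Real.exp (t * (∑ i, (f (a i) - μ))) := by
    have h1 : ∀ a ∈ (Fintype.piFinset (fun _ : Fin k => A)).filter
      (fun a => ε < (∑ i, f (a i)) / k - μ), Real.exp (t * (k * ε)) ≤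
        Real.exp (t * (∑ i, (f (a i) - μ))) := by
      intro a ha
      rw [Finset.mem_filter] at ha
      apply Real.exp_le_exp.mpr
      apply mul_le_mul_of_nonneg_left _ (by rw [ht]; positivity)
      rw [Finset.sum_sub_distrib]
      simp only [Finset.sum_const, Finset.card_univ, Fintype.card_fin, nsmul_eq_mul]
      have h2 := ha.2
      have h3 : (∑ i, f (a i)) = k * ((∑ i, f (a i)) / k) := by field_simp
      rw [h3]
      nlinarith
    have h2 := Finset.card_nsmul_le_sum _ _ _ h1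
    rw [nsmul_eq_mul] at h2
    exact h2.trans (Finset.sum_le_sum_of_subset_of_nonneg (Finset.filter_subset _ _)
          (fun _ _ _ => (Real.exp_pos _).le))
  have h := hlow.trans hexp
  have e : Real.exp (-(k * ε ^ 2 / 8)) * (A.card : ℝ) ^ k =
      ((A.card : ℝ) * Real.exp (2 * t ^ 2)) ^ k * Real.exp (-(t * (k * ε))) := by
    rw [mul_pow, ← Real.exp_nat_mul, mul_assoc, ← Real.exp_add, mul_comm]
    congr 2
    rw [ht]; ring
  rw [e]
  have hpos := Real.exp_pos (t * (k * ε))
  rw [Real.exp_neg, ← div_eq_mul_inv, le_div_iff₀ hpos]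
  exact h

/-- two-sided tail -/
theorem tail_two {ι : Type*} (A : Finset ι) (hA : A.Nonempty) (f : ι → ℝ)
    (hf : ∀ a ∈ A, |f a| ≤ 1) (μ : ℝ) (hμ : μ = (∑ a ∈ A, f a) / (A.card : ℝ)) (k : ℕ)
    (hk : 0 < k) (ε : ℝ) (hε : 0 < ε) :
    (((Fintype.piFinset (fun _ : Fin k => A)).filter
      (fun a => ε < |(∑ i, f (a i)) / k - μ|)).card : ℝ) ≤
      2 * Real.exp (-(k * ε ^ 2 / 8)) * (A.card : ℝ) ^ k := by
  classical
  have h1 := tail_one A hA f hf μ hμ k hk ε hε
  have h2 := tail_one A hA (fun a => - f a) (by intro a ha; rw [abs_neg]; exact hf a ha) (-μ)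
    (by rw [hμ, Finset.sum_neg_distrib, neg_div]) k hk ε hε
  have h3 : (Fintype.piFinset (fun _ : Fin k => A)).filter
      (fun a => ε < |(∑ i, f (a i)) / k - μ|) ⊆
      (Fintype.piFinset (fun _ : Fin k => A)).filter
      (fun a => ε < (∑ i, f (a i)) / k - μ) ∪
      (Fintype.piFinset (fun _ : Fin k => A)).filter
      (fun a => ε < (∑ i, (- f (a i))) / k - (-μ)) := by
    intro a ha
    rw [Finset.mem_filter] at ha
    rw [Finset.mem_union, Finset.mem_filter, Finset.mem_filter]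
    rcases lt_abs.mp ha.2 with h | h
    · left; exact ⟨ha.1, h⟩
    · right
      refine ⟨ha.1, ?_⟩
      rw [Finset.sum_neg_distrib, neg_div]
      linarith
  have h4 : (((Fintype.piFinset (fun _ : Fin k => A)).filter
      (fun a => ε < |(∑ i, f (a i)) / k - μ|)).card : ℝ) ≤
      ((Fintype.piFinset (fun _ : Fin k => A)).filter
      (fun a => ε < (∑ i, f (a i)) / k - μ)).card +
      ((Fintype.piFinset (fun _ : Fin k => A)).filter
      (fun a => ε < (∑ i, (- f (a i))) / k - (-μ))).card := by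
    exact_mod_cast (Finset.card_le_card h3).trans (Finset.card_union_le _ _)
  linarith

end H20.KM
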