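import Pool.Agent.H20.KM.Subspace

/-! # Moments, unbalancing and sifting in a finite elementary abelian 2-group. -/

open Finset BigOperators

set_option linter.unusedSectionVars false

namespace H20.KM

theorem four_pow_le_choose (p : ℕ) : 4 ^ p ≤ (4 * p).choose p := by
  induction p with
  | zero => simp
  | succ p ih =>
    have h1 : (4 * (p + 1)).choose (p + 1) =
        ∑ ij ∈ Finset.HasAntidiagonal.antidiagonal (p + 1), (4 * p).choose ij.1 * (4 : ℕ).choose ij.2 := by
      rw [← Nat.add_choose_eq, mul_add, mul_one]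
    have h2 : (4 * p).choose p * (4 : ℕ).choose 1 ≤
        ∑ ij ∈ Finset.HasAntidiagonal.antidiagonal (p + 1), (4 * p).choose ij.1 * (4 : ℕ).choose ij.2 :=
      Finset.single_le_sum (f := fun ij : ℕ × ℕ => (4 * p).choose ij.1 * (4 : ℕ).choose ij.2)
        (fun _ _ => Nat.zero_le _) (a := (p, 1)) (by simp)
    rw [h1]
    calc 4 ^ (p + 1) = 4 ^ p * 4 := by ring
      _ ≤ (4 * p).choose p * 4 := Nat.mul_le_mul_right _ ih
      _ = (4 * p).choose p * (4 : ℕ).choose 1 := by norm_num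
      _ ≤ _ := h2

variable {G : Type*} [AddCommGroup G] [Module (ZMod 2) G] [Fintype G]

/-- convolution (= correlation in characteristic two) -/
noncomputable def conv (u w : G → ℝ) (x : G) : ℝ := ∑ z : G, u (x + z) * w z

theorem conv_add (u w : G → ℝ) (x y : G) :
    ∑ z : G, u (x + z) * w (y + z) = conv u w (x + y) := by
  unfold conv
  refine Fintype.sum_equiv (Equiv.addLeft y) _ _ (fun z => ?_)
  simp only [Equiv.coe_addLeft]
  have : x + y + (y + z) = x + z := by
    rw [add_assoc, ← add_assoc y y z, add_self_zero, zero_add]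
  rw [this]

theorem moment_identity (u w φ : G → ℝ) (p : ℕ) :
    (Fintype.card G : ℝ) * ∑ x, φ x * conv u w x ^ p =
      ∑ z : Fin p → G, ∑ x, ∑ y, φ (x + y) * ((∏ i, u (x + z i)) * ∏ i, w (y + z i)) := by
  have h1 : (Fintype.card G : ℝ) * ∑ x, φ x * conv u w x ^ p =
      ∑ y : G, ∑ x : G, φ (x + y) * conv u w (x + y) ^ p := by
    have : ∀ y : G, ∑ x : G, φ (x + y) * conv u w (x + y) ^ p = ∑ x, φ x * conv u w x ^ p :=
      fun y => Fintype.sum_equiv (Equiv.addRight y) _ _ (fun x => rfl)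
    simp_rw [this]
    rw [Finset.sum_const, nsmul_eq_mul]
    rfl
  rw [h1, Finset.sum_comm]
  have h2 : ∀ x y : G, φ (x + y) * conv u w (x + y) ^ p =
      ∑ z : Fin p → G, φ (x + y) * ((∏ i, u (x + z i)) * ∏ i, w (y + z i)) := by
    intro x y
    rw [← conv_add, Fintype.sum_pow, Finset.mul_sum]
    apply Finset.sum_congr rfl
    intro z _
    rw [Finset.prod_mul_distrib]
  simp_rw [h2]
  have h3 : ∀ x : G, ∑ y : G, ∑ z : Fin p → G,
      φ (x + y) * ((∏ i, u (x + z i)) * ∏ i, w (y + z i)) =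
      ∑ z : Fin p → G, ∑ y : G, φ (x + y) * ((∏ i, u (x + z i)) * ∏ i, w (y + z i)) := by
    intro x; rw [Finset.sum_comm]
  simp_rw [h3]
  rw [Finset.sum_comm]

theorem moment_identity' (u w : G → ℝ) (p : ℕ) :
    (Fintype.card G : ℝ) * ∑ x, conv u w x ^ p =
      ∑ z : Fin p → G, (∑ x, ∏ i, u (x + z i)) * (∑ y, ∏ i, w (y + z i)) := by
  have h := moment_identity u w (fun _ => 1) p
  simp only [one_mul] at h
  rw [h]
  apply Finset.sum_congr rfl
  intro z _
  rw [Finset.sum_mul_sum]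

theorem moment_nonneg (u : G → ℝ) (p : ℕ) : 0 ≤ ∑ x, conv u u x ^ p := by
  have hG : (0 : ℝ) < Fintype.card G := by exact_mod_cast Fintype.card_pos_iff.mpr ⟨0⟩
  have h := moment_identity' u u p
  have h2 : 0 ≤ (Fintype.card G : ℝ) * ∑ x, conv u u x ^ p := by
    rw [h]
    apply Finset.sum_nonneg
    intro z _
    exact mul_self_nonneg _
  by_contra h3
  push Not at h3
  have := mul_neg_of_pos_of_neg hG h3
  linarith

theorem decoupling (u w : G → ℝ) (p : ℕ) :
    (∑ x, conv u w x ^ p) ^ 2 ≤ (∑ x, conv u u x ^ p) * ∑ x, conv w w x ^ p := by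
  have hG : (0 : ℝ) < Fintype.card G := by exact_mod_cast Fintype.card_pos_iff.mpr ⟨0⟩
  have h := Finset.sum_mul_sq_le_sq_mul_sq (univ : Finset (Fin p → G))
    (fun z => ∑ x, ∏ i, u (x + z i)) (fun z => ∑ y, ∏ i, w (y + z i))
  rw [← moment_identity'] at h
  have e1 : ∑ z : Fin p → G, (∑ x, ∏ i, u (x + z i)) ^ 2 = Fintype.card G * ∑ x, conv u u x ^ p := by
    rw [moment_identity']
    apply Finset.sum_congr rfl
    intro z _; ring
  have e2 : ∑ z : Fin p → G, (∑ x, ∏ i, w (x + z i)) ^ 2 = Fintype.card G * ∑ x, conv w w x ^ p := by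
    rw [moment_identity']
    apply Finset.sum_congr rfl
    intro z _; ring
  rw [e1, e2] at h
  have h3 : (Fintype.card G : ℝ) ^ 2 * (∑ x, conv u w x ^ p) ^ 2 ≤
      (Fintype.card G : ℝ) ^ 2 * ((∑ x, conv u u x ^ p) * ∑ x, conv w w x ^ p) := by
    calc _ = ((Fintype.card G : ℝ) * ∑ x, conv u w x ^ p) ^ 2 := by ring
      _ ≤ _ := h
      _ = _ := by ring
  exact le_of_mul_le_mul_left h3 (by positivity)

/-- balanced function `N/|A| 1_A - 1` -/
noncomputable def bal [DecidableEq G] (A : Finset G) (x : G) : ℝ :=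
  (Fintype.card G : ℝ) / A.card * (if x ∈ A then 1 else 0) - 1

/-- indicator function -/
noncomputable def ind [DecidableEq G] (A : Finset G) (x : G) : ℝ := if x ∈ A then 1 else 0

theorem sum_ind [DecidableEq G] (A : Finset G) : ∑ x, ind A x = A.card := by
  unfold ind; simp

theorem sum_ind_add [DecidableEq G] (A : Finset G) (x : G) : ∑ z, ind A (x + z) = A.card := by
  rw [← sum_ind A]
  exact Fintype.sum_equiv (Equiv.addLeft x) _ _ (fun z => rfl)

theorem conv_bal [DecidableEq G] (A B : Finset G) (hA : A.Nonempty) (hB : B.Nonempty) (x : G) :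
    conv (bal A) (bal B) x = Fintype.card G *
      ((Fintype.card G : ℝ) / (A.card * B.card) * conv (ind A) (ind B) x - 1) := by
  have hAc : (0 : ℝ) < A.card := by exact_mod_cast hA.card_pos
  have hBc : (0 : ℝ) < B.card := by exact_mod_cast hB.card_pos
  have h1 : ∀ z, bal A (x + z) * bal B z =
      (Fintype.card G : ℝ) / A.card * ((Fintype.card G : ℝ) / B.card) * (ind A (x + z) * ind B z)
      - (Fintype.card G : ℝ) / A.card * ind A (x + z)
      - (Fintype.card G : ℝ) / B.card * ind B z + 1 := by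
    intro z; unfold bal ind; ring
  unfold conv
  simp_rw [h1]
  rw [Finset.sum_add_distrib, Finset.sum_sub_distrib, Finset.sum_sub_distrib, ← Finset.mul_sum,
    ← Finset.mul_sum, ← Finset.mul_sum, sum_ind_add, sum_ind]
  simp only [Finset.sum_const, Finset.card_univ, nsmul_eq_mul, mul_one]
  field_simp
  ring

/-- normalised self-convolution of a set -/
noncomputable def FF [DecidableEq G] (A : Finset G) (x : G) : ℝ :=
  (Fintype.card G : ℝ) / (A.card * A.card) * conv (ind A) (ind A) x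

theorem conv_ind_nonneg [DecidableEq G] (A B : Finset G) (x : G) : 0 ≤ conv (ind A) (ind B) x := by
  unfold conv ind
  apply Finset.sum_nonneg
  intro z _
  split_ifs <;> simp

/-- Holder step + decoupling: one of the two sets has a large even moment. -/
theorem large_moment [DecidableEq G] (A B C : Finset G) (hA : A.Nonempty) (hB : B.Nonempty)
    (hABC : ∀ a ∈ A, ∀ b ∈ B, a + b ∉ C) (p : ℕ) (hp : Even p) :
    (C.card : ℝ) ≤ ∑ x, (FF A x - 1) ^ p ∨ (C.card : ℝ) ≤ ∑ x, (FF B x - 1) ^ p := by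
  have hG : (0 : ℝ) < Fintype.card G := by exact_mod_cast Fintype.card_pos_iff.mpr ⟨0⟩
  have hGp : (0 : ℝ) < (Fintype.card G : ℝ) ^ p := by positivity
  have h1 : (Fintype.card G : ℝ) ^ p * C.card ≤ ∑ x, conv (bal A) (bal B) x ^ p := by
    have h2 : ∀ x ∈ C, (Fintype.card G : ℝ) ^ p ≤ conv (bal A) (bal B) x ^ p := by
      intro x hx
      have h3 : conv (ind A) (ind B) x = 0 := by
        unfold conv
        apply Finset.sum_eq_zero
        intro z _
        unfold ind
        by_cases h4 : x + z ∈ A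
        · by_cases h5 : z ∈ B
          · exfalso
            apply hABC _ h4 _ h5
            rw [add_assoc, add_self_zero, add_zero]
            exact hx
          · simp [h5]
        · simp [h4]
      rw [conv_bal A B hA hB, h3, mul_zero, zero_sub, mul_neg, mul_one, hp.neg_pow]
    have h3 := Finset.card_nsmul_le_sum C _ _ h2
    rw [nsmul_eq_mul] at h3
    calc _ = (C.card : ℝ) * (Fintype.card G : ℝ) ^ p := by ring
      _ ≤ _ := h3
      _ ≤ _ := Finset.sum_le_sum_of_subset_of_nonneg (Finset.subset_univ _)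
          (fun x _ _ => hp.pow_nonneg _)
  have hself : ∀ D : Finset G, D.Nonempty → ∑ x, conv (bal D) (bal D) x ^ p =
      (Fintype.card G : ℝ) ^ p * ∑ x, (FF D x - 1) ^ p := by
    intro D hD
    rw [Finset.mul_sum]
    apply Finset.sum_congr rfl
    intro x _
    rw [conv_bal D D hD hD, mul_pow]
    rfl
  have h4 := decoupling (bal A) (bal B) p
  rw [hself A hA, hself B hB] at h4
  by_contra hcon
  push Not at hcon
  obtain ⟨hc1, hc2⟩ := hcon
  have hA0 : 0 ≤ ∑ x, (FF A x - 1) ^ p := Finset.sum_nonneg (fun x _ => hp.pow_nonneg _)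
  have hB0 : 0 ≤ ∑ x, (FF B x - 1) ^ p := Finset.sum_nonneg (fun x _ => hp.pow_nonneg _)
  have hC0 : (0 : ℝ) ≤ C.card := by positivity
  have h5 : ((Fintype.card G : ℝ) ^ p * C.card) ^ 2 ≤ (∑ x, conv (bal A) (bal B) x ^ p) ^ 2 :=
    pow_le_pow_left₀ (by positivity) h1 2
  have h6 : (∑ x, (FF A x - 1) ^ p) * ∑ x, (FF B x - 1) ^ p < (C.card : ℝ) ^ 2 := by
    rw [sq]
    exact mul_lt_mul'' hc1 hc2 hA0 hB0
  have h7 := h5.trans h4
  have h8 : (Fintype.card G : ℝ) ^ p * ∑ x, (FF A x - 1) ^ p *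
      1 * 1 = (Fintype.card G : ℝ) ^ p * ∑ x, (FF A x - 1) ^ p * 1 * 1 := rfl
  have h9 : (Fintype.card G : ℝ) ^ p * (∑ x, (FF A x - 1) ^ p) *
      ((Fintype.card G : ℝ) ^ p * ∑ x, (FF B x - 1) ^ p) =
      ((Fintype.card G : ℝ) ^ p) ^ 2 * ((∑ x, (FF A x - 1) ^ p) * ∑ x, (FF B x - 1) ^ p) := by ring
  rw [h9, mul_pow] at h7
  have h10 := le_of_mul_le_mul_left h7 (by positivity)
  linarith

/-- unbalancing -/
theorem unbalancing [DecidableEq G] (A : Finset G) (hA : A.Nonempty) (p : ℕ)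
    (c : ℝ) (hc : c ≤ ∑ x, (FF A x - 1) ^ p) (hc2 : 1 / 2 ^ p * (Fintype.card G : ℝ) ≤ c) :
    2 ^ p * (Fintype.card G : ℝ) ≤ ∑ x, FF A x ^ (4 * p) := by
  have hG : (0 : ℝ) < Fintype.card G := by exact_mod_cast Fintype.card_pos_iff.mpr ⟨0⟩
  have hpos : ∀ j : ℕ, 0 ≤ ∑ x, (FF A x - 1) ^ j := by
    intro j
    have h1 := moment_nonneg (bal A) j
    have h2 : ∑ x, conv (bal A) (bal A) x ^ j = (Fintype.card G : ℝ) ^ j * ∑ x, (FF A x - 1) ^ j := by
      rw [Finset.mul_sum]
      apply Finset.sum_congr rfl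
      intro x _
      rw [conv_bal A A hA hA, mul_pow]
      rfl
    rw [h2] at h1
    exact nonneg_of_mul_nonneg_right h1 (by positivity)
  have hexp : ∑ x, FF A x ^ (4 * p) =
      ∑ j ∈ Finset.range (4 * p + 1), ((4 * p).choose j : ℝ) * ∑ x, (FF A x - 1) ^ j := by
    have h1 : ∀ x, FF A x ^ (4 * p) =
        ∑ j ∈ Finset.range (4 * p + 1), ((4 * p).choose j : ℝ) * (FF A x - 1) ^ j := by
      intro x
      have h2 := add_pow (FF A x - 1) 1 (4 * p)
      rw [sub_add_cancel] at h2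
      rw [h2]
      apply Finset.sum_congr rfl
      intro j _
      rw [one_pow]; ring
    simp_rw [h1]
    rw [Finset.sum_comm]
    simp_rw [← Finset.mul_sum]
  rw [hexp]
  have h3 : ((4 * p).choose p : ℝ) * ∑ x, (FF A x - 1) ^ p ≤
      ∑ j ∈ Finset.range (4 * p + 1), ((4 * p).choose j : ℝ) * ∑ x, (FF A x - 1) ^ j :=
    Finset.single_le_sum (f := fun j => ((4 * p).choose j : ℝ) * ∑ x, (FF A x - 1) ^ j)
      (fun j _ => mul_nonneg (by positivity) (hpos j)) (a := p)
      (by rw [Finset.mem_range]; omega)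
  refine le_trans ?_ h3
  have h4 : (4 : ℝ) ^ p ≤ ((4 * p).choose p : ℝ) := by exact_mod_cast four_pow_le_choose p
  calc 2 ^ p * (Fintype.card G : ℝ) = 4 ^ p * (1 / 2 ^ p * (Fintype.card G : ℝ)) := by
        rw [show (4 : ℝ) = 2 * 2 by norm_num, mul_pow]
        field_simp
    _ ≤ ((4 * p).choose p : ℝ) * ∑ x, (FF A x - 1) ^ p := by
        apply mul_le_mul h4 (hc2.trans hc) (by positivity) (by positivity)

end H20.KM
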