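import Pool.Agent.H20.KM.Periods
import Pool.Agent.H20.KM.Chang

/-! # Almost periods forming a subspace. -/

open Finset BigOperators

set_option linter.unusedSectionVars false

namespace H20.KM

variable {G : Type*} [AddCommGroup G] [Module (ZMod 2) G] [Fintype G]

theorem ft_av (X : Finset G) (u : G → ℝ) (ξ : Module.Dual (ZMod 2) G) :
    ft (av X u) ξ = ft u ξ * ((∑ s ∈ X, chi ξ s) / X.card) := by
  unfold ft av
  have h1 : ∀ x : G, (∑ a ∈ X, u (x + a)) / (X.card : ℝ) * chi ξ x =
      (∑ a ∈ X, u (x + a) * chi ξ (x + a) * chi ξ a) / X.card := by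
    intro x
    rw [div_mul_eq_mul_div, Finset.sum_mul]
    congr 1
    apply Finset.sum_congr rfl
    intro a _
    rw [chi_add_right]
    have := chi_sq ξ a
    calc u (x + a) * chi ξ x = u (x + a) * chi ξ x * (chi ξ a * chi ξ a) := by rw [this, mul_one]
      _ = _ := by ring
  simp_rw [h1]
  rw [← Finset.sum_div, Finset.sum_comm, ← mul_div_assoc, Finset.mul_sum]
  congr 1
  apply Finset.sum_congr rfl
  intro a _
  rw [← Finset.sum_mul]
  congr 1
  exact Fintype.sum_equiv (Equiv.addRight a) _ _ (fun x => rfl)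

theorem ft_iter (X : Finset G) (u : G → ℝ) (ξ : Module.Dual (ZMod 2) G) (j : ℕ) :
    ft ((av X)^[j] u) ξ = ft u ξ * ((∑ s ∈ X, chi ξ s) / X.card) ^ j := by
  induction j with
  | zero => simp
  | succ j ih => rw [Function.iterate_succ_apply', ft_av, ih, pow_succ]; ring

theorem iter_periods (X : Finset G) (h : G → ℝ) (c : ℝ) (hc : 0 ≤ c)
    (hp : ∀ t ∈ X, ∀ t' ∈ X, ∀ x, |h (x + t) - h (x + t')| ≤ c) (j : ℕ) :
    ∀ t ∈ X, ∀ t' ∈ X, ∀ x, |(av X)^[j] h (x + t) - (av X)^[j] h (x + t')| ≤ c := by
  induction j with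
  | zero => simpa using hp
  | succ j ih =>
    intro t ht t' ht' x
    rw [Function.iterate_succ_apply']
    rw [← av_translate, ← av_translate, av_sub]
    apply abs_av_le _ _ _ hc
    intro a _
    exact ih t ht t' ht' (x + a)

theorem iter_close (X : Finset G) (hX : X.Nonempty) (h : G → ℝ) (c : ℝ) (hc : 0 ≤ c)
    (hp : ∀ t ∈ X, ∀ t' ∈ X, ∀ x, |h (x + t) - h (x + t')| ≤ c) (j : ℕ) :
    ∀ x, |(av X)^[2 * j] h x - h x| ≤ c * j := by
  have hXc : (0 : ℝ) < X.card := by exact_mod_cast hX.card_pos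
  induction j with
  | zero => simp
  | succ j ih =>
    intro x
    have e : 2 * (j + 1) = (2 * j + 1) + 1 := by ring
    rw [e, Function.iterate_succ_apply', Function.iterate_succ_apply']
    set u := (av X)^[2 * j] h with hu
    have hpu := iter_periods X h c hc hp (2 * j)
    rw [← hu] at hpu
    have h1 : |av X (av X u) x - u x| ≤ c := by
      have h2 : av X (av X u) x - u x = av X (fun y => av X u y - u x) x := by
        unfold av
        rw [Finset.sum_sub_distrib, Finset.sum_const, nsmul_eq_mul, sub_div]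
        congr 1
        field_simp
      rw [h2]
      apply abs_av_le _ _ _ hc
      intro a ha
      have h3 : av X u (x + a) - u x = av X (fun y => u y - u x) (x + a) := by
        unfold av
        rw [Finset.sum_sub_distrib, Finset.sum_const, nsmul_eq_mul, sub_div]
        congr 1
        field_simp
      rw [h3]
      apply abs_av_le _ _ _ hc
      intro b hb
      have h4 := hpu b hb a ha (x + a)
      rwa [add_assoc x a a, add_self_zero, add_zero] at h4
    have h5 := ih x
    have h6 := abs_sub_le (av X (av X u) x) (u x) (h x)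
    push_cast
    linarith

/-- Existence of the annihilator of the large spectrum, of small codimension. -/
theorem exists_annihilator (X : Finset G) (hX : X.Nonempty) :
    ∃ V : Submodule (ZMod 2) G, ∃ K : ℕ,
      Module.finrank (ZMod 2) G ≤ Module.finrank (ZMod 2) V + K ∧
      (K : ℝ) ≤ 8 * Real.log ((Fintype.card G : ℝ) / X.card) ∧
      ∀ ξ : Module.Dual (ZMod 2) G, (X.card : ℝ) / 2 ≤ |∑ x ∈ X, chi ξ x| → ∀ v ∈ V, ξ v = 0 := by
  classical
  set S : Set (Module.Dual (ZMod 2) G) := {ξ | (X.card : ℝ) / 2 ≤ |∑ x ∈ X, chi ξ x|} with hS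
  obtain ⟨b, hbS, hspan, hli⟩ := exists_linearIndependent (ZMod 2) S
  set Λ : Finset (Module.Dual (ZMod 2) G) := b.toFinite.toFinset with hΛ
  have hmem : ∀ ξ, ξ ∈ Λ ↔ ξ ∈ b := by intro ξ; rw [hΛ]; exact Set.Finite.mem_toFinset _
  set φ : G →ₗ[ZMod 2] (Λ → ZMod 2) := LinearMap.pi (fun i => i.1) with hφ
  refine ⟨LinearMap.ker φ, Λ.card, ?_, ?_, ?_⟩
  · have h1 := LinearMap.finrank_range_add_finrank_ker φ
    have h2 : Module.finrank (ZMod 2) (LinearMap.range φ) ≤ Λ.card := by
      refine (Submodule.finrank_le _).trans ?_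
      simp
    omega
  · apply chang X hX Λ
    · intro t ht h0
      by_contra hne
      obtain ⟨i, hi⟩ := Finset.nonempty_iff_ne_empty.mpr hne
      have hib : i ∈ b := (hmem i).mp (ht hi)
      rw [linearIndependent_iff'] at hli
      have h3 := hli (t.subtype (· ∈ b)) (fun _ => 1) (by
        simp only [one_smul]
        rw [← h0]
        rw [Finset.sum_subtype_eq_sum_filter (p := (· ∈ b)) (s := t) (f := fun i => i)]
        rw [Finset.filter_true_of_mem]
        intro j hj
        exact (hmem j).mp (ht hj)) ⟨i, hib⟩ (by simpa using hi)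
      exact one_ne_zero h3
    · intro ξ hξ
      exact hbS ((hmem ξ).mp hξ)
  · intro ξ hξ v hv
    have h1 : ξ ∈ Submodule.span (ZMod 2) b := by
      rw [hspan]
      exact Submodule.subset_span hξ
    have hv' : ∀ i ∈ b, i v = 0 := by
      intro i hi
      have h2 : φ v = 0 := hv
      have h3 := congrFun h2 ⟨i, (hmem i).mpr hi⟩
      simpa [hφ] using h3
    refine Submodule.span_induction (p := fun ξ _ => ξ v = 0) ?_ ?_ ?_ ?_ h1
    · intro i hi; exact hv' i hi
    · simp
    · intro x y _ _ hx hy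
      rw [LinearMap.add_apply, hx, hy, add_zero]
    · intro a x _ hx
      rw [LinearMap.smul_apply, hx, smul_zero]

theorem ft_bound (A B : Finset G) (hA : A.Nonempty) (hB : B.Nonempty) (f : G → ℝ)
    (hf : ∀ x, |f x| ≤ 1) (a : ℝ) (ha : 0 < a) (haA : a * Fintype.card G ≤ A.card)
    (haB : a * Fintype.card G ≤ B.card) :
    ∑ ξ : Module.Dual (ZMod 2) G, |ft (av B (av A f)) ξ| ≤ nd G / a := by
  classical
  have hG : (0 : ℝ) < Fintype.card G := by exact_mod_cast Fintype.card_pos_iff.mpr ⟨0⟩
  have hAc : (0 : ℝ) < A.card := by exact_mod_cast hA.card_pos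
  have hBc : (0 : ℝ) < B.card := by exact_mod_cast hB.card_pos
  have hN : 0 < nd G := nd_pos
  have hff : ∀ ξ, |ft f ξ| ≤ Fintype.card G := by
    intro ξ
    unfold ft
    refine (Finset.abs_sum_le_sum_abs _ _).trans ?_
    have : ∀ x ∈ (univ : Finset G), |f x * chi ξ x| ≤ 1 := by
      intro x _
      rw [abs_mul, abs_chi, mul_one]
      exact hf x
    refine (Finset.sum_le_sum this).trans ?_
    simp
  have hpar : ∀ C : Finset G, ∑ ξ : Module.Dual (ZMod 2) G, |∑ s ∈ C, chi ξ s| ^ 2 = nd G * C.card := by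
    intro C
    have h1 := parseval (fun x => if x ∈ C then (1 : ℝ) else 0)
    have h2 : ∀ ξ, ft (fun x => if x ∈ C then (1 : ℝ) else 0) ξ = ∑ s ∈ C, chi ξ s := by
      intro ξ
      unfold ft
      simp
    simp_rw [h2] at h1
    simp_rw [sq_abs]
    rw [h1]
    congr 1
    simp
  have hprod : ∑ ξ : Module.Dual (ZMod 2) G, |∑ s ∈ A, chi ξ s| * |∑ s ∈ B, chi ξ s| ≤
      nd G * (Real.sqrt A.card * Real.sqrt B.card) := by
    have h1 := Finset.sum_mul_sq_le_sq_mul_sq (univ : Finset (Module.Dual (ZMod 2) G))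
      (fun ξ => |∑ s ∈ A, chi ξ s|) (fun ξ => |∑ s ∈ B, chi ξ s|)
    rw [hpar, hpar] at h1
    have h2 : (nd G * (Real.sqrt A.card * Real.sqrt B.card)) ^ 2 = nd G * A.card * (nd G * B.card) := by
      rw [mul_pow, mul_pow, Real.sq_sqrt hAc.le, Real.sq_sqrt hBc.le]; ring
    rw [← h2] at h1
    exact le_of_sq_le_sq h1 (by positivity)
  have hsq : a * Fintype.card G ≤ Real.sqrt A.card * Real.sqrt B.card := by
    rw [← Real.sqrt_mul hAc.le]
    apply Real.le_sqrt_of_sq_le
    rw [sq]
    exact mul_le_mul haA haB (by positivity) hAc.le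
  have hsA := Real.mul_self_sqrt hAc.le
  have hsB := Real.mul_self_sqrt hBc.le
  have hsA0 : 0 < Real.sqrt A.card := Real.sqrt_pos.mpr hAc
  have hsB0 : 0 < Real.sqrt B.card := Real.sqrt_pos.mpr hBc
  calc ∑ ξ : Module.Dual (ZMod 2) G, |ft (av B (av A f)) ξ|
      ≤ ∑ ξ : Module.Dual (ZMod 2) G, Fintype.card G / (A.card * B.card) *
          (|∑ s ∈ A, chi ξ s| * |∑ s ∈ B, chi ξ s|) := by
        apply Finset.sum_le_sum
        intro ξ _
        rw [ft_av, ft_av, abs_mul, abs_mul, abs_div, abs_div, abs_of_pos hAc, abs_of_pos hBc]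
        have h1 := hff ξ
        have h2 : |ft f ξ| * (|∑ s ∈ A, chi ξ s| / A.card) * (|∑ s ∈ B, chi ξ s| / B.card) =
          |ft f ξ| * ((|∑ s ∈ A, chi ξ s| * |∑ s ∈ B, chi ξ s|) / (A.card * B.card)) := by
          field_simp
        have h3 : (Fintype.card G : ℝ) / (A.card * B.card) *
          (|∑ s ∈ A, chi ξ s| * |∑ s ∈ B, chi ξ s|) = Fintype.card G *
          ((|∑ s ∈ A, chi ξ s| * |∑ s ∈ B, chi ξ s|) / (A.card * B.card)) := by
          field_simp
        rw [h2, h3]
        apply mul_le_mul_of_nonneg_right h1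
        positivity
    _ = Fintype.card G / (A.card * B.card) * ∑ ξ : Module.Dual (ZMod 2) G,
          (|∑ s ∈ A, chi ξ s| * |∑ s ∈ B, chi ξ s|) := by rw [Finset.mul_sum]
    _ ≤ Fintype.card G / (A.card * B.card) * (nd G * (Real.sqrt A.card * Real.sqrt B.card)) :=
        mul_le_mul_of_nonneg_left hprod (by positivity)
    _ ≤ nd G / a := by
        rw [le_div_iff₀ ha, div_mul_eq_mul_div, div_mul_eq_mul_div, div_le_iff₀ (by positivity)]
        have e1 : (A.card : ℝ) * B.card = (Real.sqrt A.card * Real.sqrt B.card) *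
            (Real.sqrt A.card * Real.sqrt B.card) := by
          calc (A.card : ℝ) * B.card = (Real.sqrt A.card * Real.sqrt A.card) *
            (Real.sqrt B.card * Real.sqrt B.card) := by rw [hsA, hsB]
            _ = _ := by ring
        rw [e1]
        have hh := mul_le_mul_of_nonneg_left hsq
          (show 0 ≤ nd G * (Real.sqrt A.card * Real.sqrt B.card) by positivity)
        calc Fintype.card G * (nd G * (Real.sqrt A.card * Real.sqrt B.card)) * a =
          (nd G * (Real.sqrt A.card * Real.sqrt B.card)) * (a * Fintype.card G) := by ring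
          _ ≤ _ := hh
          _ = _ := by ring

/-- **Almost periodicity along a subspace.** -/
theorem ap_subspace (A B : Finset G) (hA : A.Nonempty) (hB : B.Nonempty) (f : G → ℝ)
    (hf : ∀ x, |f x| ≤ 1) (a : ℝ) (ha : 0 < a) (haA : a * Fintype.card G ≤ A.card)
    (haB : a * Fintype.card G ≤ B.card) (k m : ℕ) (hk : 0 < k) (ε : ℝ) (hε : 0 < ε)
    (hkε : 2 * Real.exp (-(k * ε ^ 2 / 8)) ≤ ε * a / 8) :
    ∃ V : Submodule (ZMod 2) G, ∃ K : ℕ,
      Module.finrank (ZMod 2) G ≤ Module.finrank (ZMod 2) V + K ∧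
      (K : ℝ) ≤ 8 * (k * Real.log (1 / a) + Real.log 2) ∧
      ∀ v ∈ V, ∀ x, |av B (av A f) (x + v) - av B (av A f) x| ≤ 6 * m * ε + 2 / 4 ^ m / a := by
  classical
  have hG : (0 : ℝ) < Fintype.card G := by exact_mod_cast Fintype.card_pos_iff.mpr ⟨0⟩
  have hAc : (0 : ℝ) < A.card := by exact_mod_cast hA.card_pos
  have hBc : (0 : ℝ) < B.card := by exact_mod_cast hB.card_pos
  have hN : 0 < nd G := nd_pos
  have haA' : a ≤ (A.card : ℝ) / Fintype.card G := by rwa [le_div_iff₀ hG]
  have haB' : a ≤ (B.card : ℝ) / Fintype.card G := by rwa [le_div_iff₀ hG]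
  obtain ⟨X, hXcard, hXp⟩ := sup_periods add_self_zero A B hA hB f hf k hk ε hε (by
    refine hkε.trans ?_
    have := mul_le_mul_of_nonneg_left haB' hε.le
    linarith)
  have hXpos : (0 : ℝ) < X.card := by
    refine lt_of_lt_of_le ?_ hXcard
    positivity
  have hX : X.Nonempty := by
    rw [← Finset.card_pos]
    exact_mod_cast hXpos
  obtain ⟨V, K, hVK, hK, hV⟩ := exists_annihilator X hX
  refine ⟨V, K, hVK, hK.trans ?_, ?_⟩
  · apply mul_le_mul_of_nonneg_left _ (by norm_num)
    have h1 : (Fintype.card G : ℝ) / X.card ≤ 2 * (1 / a) ^ k := by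
      rw [div_le_iff₀ hXpos]
      have h2 : a ^ k / 2 * Fintype.card G ≤ X.card := by
        refine le_trans ?_ hXcard
        apply mul_le_mul_of_nonneg_right _ hG.le
        apply div_le_div_of_nonneg_right _ (by norm_num)
        exact pow_le_pow_left₀ ha.le haA' k
      have h3 : 2 * (1 / a) ^ k * (a ^ k / 2 * Fintype.card G) = Fintype.card G := by
        rw [one_div, inv_pow]
        field_simp
      calc (Fintype.card G : ℝ) = 2 * (1 / a) ^ k * (a ^ k / 2 * Fintype.card G) := h3.symm
        _ ≤ _ := mul_le_mul_of_nonneg_left h2 (by positivity)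
    have h4 := Real.log_le_log (by positivity) h1
    rw [Real.log_mul (by norm_num) (by positivity), Real.log_pow] at h4
    linarith
  · intro v hv x
    set h := av B (av A f) with hh
    set F := (av X)^[2 * m] h with hF
    have hclose := iter_close X hX h (3 * ε) (by positivity) hXp m
    rw [← hF] at hclose
    have h1 := hclose x
    have h2 := hclose (x + v)
    have h3 : |F (x + v) - F x| ≤ 2 / 4 ^ m / a := by
      have e1 : nd G * (F (x + v) - F x) =
          ∑ ξ : Module.Dual (ZMod 2) G, ft F ξ * (chi ξ v - 1) * chi ξ x := by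
        rw [mul_sub, ← inversion, ← inversion, ← Finset.sum_sub_distrib]
        apply Finset.sum_congr rfl
        intro ξ _
        rw [chi_add_right]; ring
      have e2 : nd G * |F (x + v) - F x| ≤ nd G * (2 / 4 ^ m / a) := by
        rw [← abs_of_pos hN, ← abs_mul, abs_of_pos hN, e1]
        refine (Finset.abs_sum_le_sum_abs _ _).trans ?_
        have h4 : ∀ ξ ∈ (univ : Finset (Module.Dual (ZMod 2) G)),
            |ft F ξ * (chi ξ v - 1) * chi ξ x| ≤ 2 / 4 ^ m * |ft h ξ| := by
          intro ξ _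
          rw [abs_mul, abs_chi, mul_one, abs_mul, hF, ft_iter, abs_mul, abs_pow]
          by_cases hξ : (X.card : ℝ) / 2 ≤ |∑ x ∈ X, chi ξ x|
          · have h5 := hV ξ hξ v hv
            have h6 : chi ξ v = 1 := by simp [chi, h5]
            rw [h6, sub_self, abs_zero, mul_zero]
            positivity
          · have h7 : |(∑ s ∈ X, chi ξ s) / (X.card : ℝ)| ≤ 1 / 2 := by
              rw [abs_div, abs_of_pos hXpos, div_le_iff₀ hXpos]
              linarith [not_le.mp hξ]
            have h8 : |(∑ s ∈ X, chi ξ s) / (X.card : ℝ)| ^ (2 * m) ≤ 1 / 4 ^ m := by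
              calc |(∑ s ∈ X, chi ξ s) / (X.card : ℝ)| ^ (2 * m) ≤ (1 / 2) ^ (2 * m) :=
                    pow_le_pow_left₀ (abs_nonneg _) h7 _
                _ = 1 / 4 ^ m := by
                  rw [pow_mul, show ((1 : ℝ) / 2) ^ 2 = 1 / 4 by norm_num, div_pow, one_pow]
            have h9 : |chi ξ v - 1| ≤ 2 := by
              rcases chi_eq ξ v with h | h <;> rw [h] <;> norm_num
            calc |ft h ξ| * |(∑ s ∈ X, chi ξ s) / (X.card : ℝ)| ^ (2 * m) * |chi ξ v - 1|
                ≤ |ft h ξ| * (1 / 4 ^ m) * 2 := by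
                  apply mul_le_mul _ h9 (abs_nonneg _) (by positivity)
                  exact mul_le_mul_of_nonneg_left h8 (abs_nonneg _)
              _ = 2 / 4 ^ m * |ft h ξ| := by ring
        refine (Finset.sum_le_sum h4).trans ?_
        rw [← Finset.mul_sum]
        have h5 := ft_bound A B hA hB f hf a ha haA haB
        rw [← hh] at h5
        calc 2 / 4 ^ m * ∑ i, |ft h i| ≤ 2 / 4 ^ m * (nd G / a) :=
              mul_le_mul_of_nonneg_left h5 (by positivity)
          _ = _ := by ring
      exact le_of_mul_le_mul_left e2 hN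
    have h4 : |h (x + v) - h x| ≤ |h (x + v) - F (x + v)| + |F (x + v) - F x| + |F x - h x| := by
      have := abs_sub_le (h (x + v)) (F (x + v)) (h x)
      have h5 := abs_sub_le (F (x + v)) (F x) (h x)
      linarith
    rw [abs_sub_comm (h (x + v)) (F (x + v))] at h4
    linarith

end H20.KM
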